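import Mathlib

set_option autoImplicit false

open Set Filter Topology

namespace Pool.Agent.H816R3.Smirnov

/-- enumeration of the rationals (as reals) -/
noncomputable def c (i : ℕ) : ℝ := ((Denumerable.eqv ℚ).symm i : ℚ)

/-- nodes: tree nodes (finite sequences, last entry first) and branch tops, in every stage -/
inductive V : Type
  | nd (j : ℕ) (s : List ℕ)
  | tp (j : ℕ) (g : ℕ → ℕ)

/-- links -/
inductive L : Type
  | tr (j : ℕ) (s : List ℕ)
  | br (j : ℕ) (g : ℕ → ℕ)
  | ex (j : ℕ) (g : ℕ → ℕ)

/-- the first `m` values of `g`, last one first -/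
def take (g : ℕ → ℕ) : ℕ → List ℕ
  | 0 => []
  | m + 1 => g m :: take g m

theorem length_take (g : ℕ → ℕ) (m : ℕ) : (take g m).length = m := by
  induction m with
  | zero => rfl
  | succ m ih => simp [take, ih]

/-- top node of a link -/
def top : L → V
  | .tr j s => .nd j s
  | .br j g => .tp j g
  | .ex j g => .tp j g

/-- list of the `k`-th right node of a link -/
def rl : L → ℕ → List ℕ
  | .tr _ s, k => k :: s
  | .br _ g, m => take g m
  | .ex _ _, k => [k]

/-- stage of the right nodes -/
def rs : L → ℕ
  | .tr j _ => j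
  | .br j _ => j
  | .ex j _ => j + 1

/-- the `k`-th right node of a link -/
def rt (l : L) (k : ℕ) : V := .nd (rs l) (rl l k)

/-- points of the base: node points and link points -/
inductive Z : Type
  | pt (v : V) (b : ℝ)
  | lk (l : L) (k : ℕ) (a b : ℝ)

/-- basic neighbourhoods in the base -/
def O (m : ℕ) (F : Finset ℝ) : Z → Z → Prop
  | .pt v b, .pt v' b' => v = v' ∧ b = b'
  | .pt v b, .lk l k a b' => (top l = v ∧ m ≤ k ∧ a = b) ∨ (rt l k = v ∧ b' = b ∧ a ∉ F)
  | .lk l k a b, z' => z' = .lk l k a b

theorem O_refl (m : ℕ) (F : Finset ℝ) (z : Z) : O m F z z := by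
  cases z with
  | pt v b => exact ⟨rfl, rfl⟩
  | lk l k a b => rfl

theorem O_mono {m m' : ℕ} {F F' : Finset ℝ} (hm : m ≤ m') (hF : F ⊆ F') {z z' : Z}
    (h : O m' F' z z') : O m F z z' := by
  cases z with
  | pt v b =>
    cases z' with
    | pt v' b' => exact h
    | lk l k a b' =>
      rcases h with ⟨h1, h2, h3⟩ | ⟨h1, h2, h3⟩
      · exact Or.inl ⟨h1, hm.trans h2, h3⟩
      · exact Or.inr ⟨h1, h2, fun h => h3 (hF h)⟩
  | lk l k a b => exact h

/-- bound for the index of a right node -/
theorem index_bound {l : L} {k j : ℕ} {s : List ℕ} (h : rt l k = .nd j s) :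
    k ≤ s.length + s.headD 0 := by
  simp only [rt, V.nd.injEq] at h
  obtain ⟨_, h⟩ := h
  subst h
  cases l with
  | tr j s => simp [rl]
  | br j g => simp [rl, length_take]
  | ex j g => simp [rl]

theorem O_clopen (m : ℕ) (F : Finset ℝ) (z z₁ : Z) :
    (O m F z z₁ → ∃ (m' : ℕ) (F' : Finset ℝ), ∀ z', O m' F' z₁ z' → O m F z z') ∧
    (¬ O m F z z₁ → ∃ (m' : ℕ) (F' : Finset ℝ), ∀ z', O m' F' z₁ z' → ¬ O m F z z') := by
  classical
  cases z₁ with
  | lk l k a b =>
    refine ⟨fun h => ⟨0, ∅, ?_⟩, fun h => ⟨0, ∅, ?_⟩⟩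
    · intro z' hz'
      have : z' = .lk l k a b := hz'
      rw [this]; exact h
    · intro z' hz'
      have : z' = .lk l k a b := hz'
      rw [this]; exact h
  | pt v₁ b₁ =>
    cases z with
    | lk l k a b =>
      constructor
      · intro h
        exact absurd (show Z.pt v₁ b₁ = Z.lk l k a b from h) (by simp)
      · intro _
        refine ⟨k + 1, {a}, ?_⟩
        intro z' hz' hcon
        have : z' = .lk l k a b := hcon
        subst this
        rcases hz' with ⟨_, h2, _⟩ | ⟨_, _, h3⟩
        · omega
        · exact h3 (Finset.mem_singleton_self a)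
    | pt v b =>
      constructor
      · rintro ⟨rfl, rfl⟩
        exact ⟨m, F, fun z' hz' => hz'⟩
      · intro hne
        -- bound
        obtain ⟨K, hK⟩ : ∃ K : ℕ, ∀ (l : L) (k : ℕ), rt l k = v → k < K := by
          cases v with
          | nd j s =>
            exact ⟨s.length + s.headD 0 + 1, fun l k h => Nat.lt_succ_of_le (index_bound h)⟩
          | tp j g =>
            exact ⟨0, fun l k h => by simp [rt] at h⟩
        refine ⟨K, {b}, ?_⟩
        intro z' hz' hcon
        cases z' with
        | pt v' b' =>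
          obtain ⟨rfl, rfl⟩ := hz'
          exact hne hcon
        | lk l k a b' =>
          rcases hz' with ⟨h1, h2, h3⟩ | ⟨h1, h2, h3⟩
          · rcases hcon with ⟨g1, g2, g3⟩ | ⟨g1, g2, g3⟩
            · exact hne ⟨g1.symm.trans h1, g3.symm.trans h3⟩
            · have := hK l k g1
              omega
          · rcases hcon with ⟨g1, g2, g3⟩ | ⟨g1, g2, g3⟩
            · exact h3 (Finset.mem_singleton.2 g3)
            · exact hne ⟨g1.symm.trans h1, g2.symm.trans h2⟩

/-! ### the type functions -/

open Classical in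
/-- the type of a finite sequence: `0` on the holes, `1` elsewhere -/
noncomputable def T : List ℕ → ℝ → ℝ
  | [], _ => 1
  | k :: s, r => if |r - c s.length| < 1 / ((k : ℝ) + 1) then 0 else T s r

/-- value of the `n`-th function at a node -/
noncomputable def nu (n : ℕ) : V → ℝ → ℝ
  | .nd j s, r => if j < n then 1 else if j = n then T s r else 0
  | .tp j _, _ => if j < n then 1 else 0

/-- the `n`-th function -/
noncomputable def f (n : ℕ) : ℝ → Z → ℝ
  | r, .pt v _ => nu n v r
  | r, .lk l k _ _ => nu n (rt l k) r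

/-- stage -/
def st : Z → ℕ
  | .pt (.nd j _) _ => j
  | .pt (.tp j _) _ => j
  | .lk l _ _ _ => rs l

theorem f_of_st_lt {n : ℕ} {r : ℝ} {z : Z} (h : st z < n) : f n r z = 1 := by
  cases z with
  | pt v b =>
    cases v with
    | nd j s => simp [f, nu, show j < n from h]
    | tp j g => simp [f, nu, show j < n from h]
  | lk l k a b => simp [f, nu, rt, show rs l < n from h]

theorem f_of_lt_st {n : ℕ} {r : ℝ} {z : Z} (h : n < st z) : f n r z = 0 := by
  cases z with
  | pt v b =>
    cases v with
    | nd j s =>
      have : n < j := h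
      simp [f, nu, show ¬ j < n by omega, show ¬ j = n by omega]
    | tp j g =>
      have : n < j := h
      simp [f, nu, show ¬ j < n by omega]
  | lk l k a b =>
    have : n < rs l := h
    simp [f, nu, rt, show ¬ rs l < n by omega, show ¬ rs l = n by omega]

theorem st_le_of_O {m : ℕ} {F : Finset ℝ} {z z' : Z} (h : O m F z z') : st z' ≤ st z + 1 := by
  cases z with
  | lk l k a b =>
    have : z' = .lk l k a b := h
    rw [this]; omega
  | pt v b =>
    cases z' with
    | pt v' b' =>
      obtain ⟨rfl, rfl⟩ := h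
      omega
    | lk l k a b' =>
      rcases h with ⟨h1, _, _⟩ | ⟨h1, _, _⟩
      · subst h1
        cases l with
        | tr j s => simp [st, rs, top]
        | br j g => simp [st, rs, top]
        | ex j g => simp [st, rs, top]
      · subst h1
        simp [st, rt]

end Pool.Agent.H816R3.Smirnov
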