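import Pool.Agent.H816R3.Smirnov.Infer

set_option autoImplicit false

open Set Filter Topology

namespace Pool.Agent.H816R3.Smirnov

/-- the limit at the level zero -/
theorem exists_limit {Y : Type} [TopologicalSpace Y] [AddAction ℚ Y] {nu : X → Y}
    (heq : ∀ (q : ℚ) (x : X), nu (q +ᵥ x) = q +ᵥ nu x) (φ : Y → ℝ)
    (hU : ∀ ε : ℝ, 0 < ε → ∃ δ : ℝ, 0 < δ ∧ ∀ q : ℚ, |(q : ℝ)| < δ → ∀ y, |φ (q +ᵥ y) - φ y| < ε)
    (z : Z) : ∃ L : ℝ, ∀ ε δ : ℝ, 0 < ε → 0 < δ →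
      (∀ q : ℚ, |(q : ℝ)| < δ → ∀ y, |φ (q +ᵥ y) - φ y| < ε) →
      ∀ q : ℚ, |(q : ℝ) + phi z| < δ / 2 → |φ (nu (.mk q z)) - L| ≤ ε := by
  have hstep : ∀ ε δ : ℝ, 
      (∀ q : ℚ, |(q : ℝ)| < δ → ∀ y, |φ (q +ᵥ y) - φ y| < ε) →
      ∀ q q' : ℚ, |(q : ℝ) + phi z| < δ / 2 → |(q' : ℝ) + phi z| < δ / 2 →
      |φ (nu (.mk q z)) - φ (nu (.mk q' z))| < ε := by
    intro ε δ h q q' hq hq'
    have h1 : nu (.mk q z) = (q - q') +ᵥ nu (.mk q' z) := by
      rw [← heq, vadd_mk]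
      congr 2
      ring
    rw [h1]
    apply h
    push_cast
    have e : (q : ℝ) - q' = (q + phi z) - (q' + phi z) := by ring
    rw [e]
    have := abs_sub (q + phi z) (q' + phi z)
    linarith
  have hq : ∀ n : ℕ, ∃ q : ℚ, |(q : ℝ) + phi z| < 1 / ((n : ℝ) + 1) := by
    intro n
    obtain ⟨q, hq1, hq2⟩ := exists_rat_btwn (show -phi z - 1 / ((n : ℝ) + 1)
      < -phi z + 1 / ((n : ℝ) + 1) by
        have : (0 : ℝ) < 1 / ((n : ℝ) + 1) := by positivity
        linarith)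
    refine ⟨q, abs_lt.2 ⟨by linarith, by linarith⟩⟩
  choose qn hqn using hq
  have hev : ∀ δ : ℝ, 0 < δ → ∃ N : ℕ, ∀ n, N ≤ n → |(qn n : ℝ) + phi z| < δ / 2 := by
    intro δ hδ
    obtain ⟨N, hN⟩ := exists_nat_one_div_lt (half_pos hδ)
    refine ⟨N, fun n hn => ?_⟩
    refine (hqn n).trans_le (le_trans ?_ hN.le)
    have : (N : ℝ) ≤ n := by exact_mod_cast hn
    gcongr
  have hcauchy : CauchySeq fun n => φ (nu (.mk (qn n) z)) := by
    rw [Metric.cauchySeq_iff']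
    intro ε hε
    obtain ⟨δ, hδ, hδU⟩ := hU ε hε
    obtain ⟨N, hN⟩ := hev δ hδ
    refine ⟨N, fun n hn => ?_⟩
    rw [Real.dist_eq]
    exact hstep ε δ hδU _ _ (hN n hn) (hN N le_rfl)
  obtain ⟨L, hL⟩ := cauchySeq_tendsto_of_complete hcauchy
  refine ⟨L, fun ε δ hε hδ h q hqz => ?_⟩
  obtain ⟨N, hN⟩ := hev δ hδ
  have h1 : Tendsto (fun n => |φ (nu (.mk q z)) - φ (nu (.mk (qn n) z))|) atTop
      (𝓝 |φ (nu (.mk q z)) - L|) := (hL.const_sub _).abs
  refine le_of_tendsto h1 ?_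
  filter_upwards [eventually_ge_atTop N] with n hn
  exact (hstep ε δ h _ _ hqz (hN n hn)).le

theorem not_embeddable : ¬ ∃ (Y : Type) (_ : TopologicalSpace Y) (_ : AddAction ℚ Y),
          ContinuousVAdd ℚ Y ∧ CompactSpace Y ∧ T2Space Y ∧
          ∃ f : X → Y, Topology.IsEmbedding f ∧ ∀ (q : ℚ) (x : X), f (q +ᵥ x) = q +ᵥ f x := by
  rintro ⟨Y, _, _, _, _, _, nu, hnu, heq⟩
  -- the closed set
  let A : Set X := {x | ∃ q z, x = .mk q z ∧ st z = 0}
  have hpA : X.p ∉ closure A := by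
    intro hcon
    rw [mem_closure_iff_nhds] at hcon
    obtain ⟨x, hx1, hx2⟩ := hcon _ (mem_nhds_p 1)
    obtain ⟨q, z, hx, hz⟩ := hx2
    subst hx
    rcases hx1 with h | ⟨q', z', h, hz'⟩
    · exact X.noConfusion h
    · obtain ⟨rfl, rfl⟩ := X.mk.inj h
      omega
  have hpA' : nu X.p ∉ closure (nu '' A) := by
    intro hcon
    apply hpA
    rw [hnu.isInducing.closure_eq_preimage_closure_image]
    exact hcon
  obtain ⟨φ, hφ0, hφ1, hφ01⟩ := exists_continuous_zero_one_of_isClosed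
    (isClosed_closure (s := nu '' A)) (isClosed_singleton (x := nu X.p))
    (Set.disjoint_singleton_right.2 hpA')
  -- uniformity
  have hU : ∀ ε : ℝ, 0 < ε → ∃ δ : ℝ, 0 < δ ∧ ∀ q : ℚ, |(q : ℝ)| < δ →
      ∀ y, |φ (q +ᵥ y) - φ y| < ε := by
    intro ε hε
    have hopen : IsOpen {a : ℚ × Y | |φ (a.1 +ᵥ a.2) - φ a.2| < ε} := by
      refine isOpen_lt ?_ continuous_const
      exact ((φ.continuous.comp continuous_vadd).sub (φ.continuous.comp continuous_snd)).abs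
    obtain ⟨u, v, hu, hv, hsu, htv, huv⟩ := generalized_tube_lemma
      (isCompact_singleton (x := (0 : ℚ))) (isCompact_univ (X := Y)) hopen (by
        rintro ⟨q, y⟩ ⟨hq, _⟩
        simp only [Set.mem_singleton_iff] at hq
        subst hq
        simpa using hε)
    obtain ⟨δ, hδ, hb⟩ := Metric.isOpen_iff.1 hu 0 (hsu rfl)
    refine ⟨δ, hδ, fun q hq y => ?_⟩
    have h1 : q ∈ Metric.ball (0 : ℚ) δ := by
      rw [Metric.mem_ball, Rat.dist_eq]
      simpa using hq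
    exact huv (show (q, y) ∈ u ×ˢ v from ⟨hb h1, htv trivial⟩)
  have hlim := exists_limit heq φ hU
  choose h hh using hlim
  -- continuity at nodes
  have hcn : ContNode h := by
    intro v b ε hε
    obtain ⟨δ, hδ, hδU⟩ := hU (ε / 4) (by positivity)
    obtain ⟨q, hq1, hq2⟩ := exists_rat_btwn (show -phi (.pt v b) - δ / 8
      < -phi (.pt v b) + δ / 8 by linarith)
    have hq : |(q : ℝ) + phi (.pt v b)| < δ / 8 := abs_lt.2 ⟨by linarith, by linarith⟩
    have hcont : Continuous fun x : X => φ (nu x) := φ.continuous.comp hnu.continuous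
    have h1 : {x : X | |φ (nu x) - φ (nu (.mk q (.pt v b)))| < ε / 4}
        ∈ 𝓝 (X.mk q (.pt v b)) := by
      have h2 := (Metric.tendsto_nhds.1 (hcont.tendsto (X.mk q (.pt v b)))) (ε / 4) (by positivity)
      exact h2
    have h3 := filt_le_nhds q (.pt v b) h1
    rw [mem_filt] at h3
    obtain ⟨m, F, δ', hδ', h4⟩ := h3
    refine ⟨m, F, fun z' hz' => ?_⟩
    obtain ⟨q', hq'1, hq'2⟩ := exists_rat_btwn (show
      (q : ℝ) + phi (.pt v b) - phi z' - min δ' (δ / 8)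
        < (q : ℝ) + phi (.pt v b) - phi z' + min δ' (δ / 8) by
      have := lt_min hδ' (show 0 < δ / 8 by positivity)
      linarith)
    have h5 : |((q' : ℝ) + phi z') - (q + phi (.pt v b))| < min δ' (δ / 8) :=
      abs_lt.2 ⟨by linarith, by linarith⟩
    have h6 := h4 q' z' hz' (h5.trans_le (min_le_left _ _))
    simp only [Set.mem_ofPred_eq] at h6
    have h7 : |(q' : ℝ) + phi z'| < δ / 2 := by
      have h8 := h5.trans_le (min_le_right _ _)
      have e : (q' : ℝ) + phi z' = ((q' + phi z') - (q + phi (.pt v b)))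
        + (q + phi (.pt v b)) := by ring
      rw [e]
      have := abs_add_le (((q' : ℝ) + phi z') - (q + phi (.pt v b))) (q + phi (.pt v b))
      linarith
    have h9 := hh z' (ε / 4) δ (by positivity) hδ hδU q' h7
    have h10 := hh (.pt v b) (ε / 4) δ (by positivity) hδ hδU q (by linarith)
    rw [abs_lt] at h6 ⊢
    rw [abs_le] at h9 h10
    constructor
    · linarith [h6.1, h6.2, h9.1, h9.2, h10.1, h10.2]
    · linarith [h6.1, h6.2, h9.1, h9.2, h10.1, h10.2]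
  have hrat : ∀ (z : Z) (δ : ℝ), 0 < δ → ∃ q : ℚ, |(q : ℝ) + phi z| < δ := by
    intro z δ hδ
    obtain ⟨q, hq1, hq2⟩ := exists_rat_btwn (show -phi z - δ < -phi z + δ by linarith)
    exact ⟨q, abs_lt.2 ⟨by linarith, by linarith⟩⟩
  refine no_fun hcn ?_ ?_
  · intro z hz
    by_contra hcon
    push Not at hcon
    obtain ⟨δ, hδ, hδU⟩ := hU (h z / 2) (by positivity)
    obtain ⟨q, hq⟩ := hrat z (δ / 2) (by positivity)
    have h1 := hh z (h z / 2) δ (by positivity) hδ hδU q hq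
    have h2 : φ (nu (.mk q z)) = 0 := hφ0 (subset_closure ⟨.mk q z, ⟨q, z, rfl, hz⟩, rfl⟩)
    rw [h2, zero_sub, abs_neg, abs_of_pos hcon] at h1
    linarith
  · have hcont : Continuous fun x : X => φ (nu x) := φ.continuous.comp hnu.continuous
    have h1 : {x : X | 7 / 8 < φ (nu x)} ∈ 𝓝 X.p := by
      refine (isOpen_lt continuous_const hcont).mem_nhds ?_
      have : φ (nu X.p) = 1 := hφ1 rfl
      change 7 / 8 < φ (nu X.p)
      rw [this]
      norm_num
    have h2 := filtp_le_nhds h1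
    rw [mem_filtp] at h2
    obtain ⟨_, N, hN⟩ := h2
    refine ⟨N, fun z hz => ?_⟩
    obtain ⟨δ, hδ, hδU⟩ := hU (1 / 8) (by norm_num)
    obtain ⟨q, hq⟩ := hrat z (δ / 2) (by positivity)
    have h3 := hh z (1 / 8) δ (by norm_num) hδ hδU q hq
    have h4 : 7 / 8 < φ (nu (.mk q z)) := hN q z hz
    rw [abs_le] at h3
    linarith [h3.1, h3.2]

end Pool.Agent.H816R3.Smirnov
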