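import Pool.Agent.H816R3.Smirnov.Space

set_option autoImplicit false

open Set Filter Topology

namespace Pool.Agent.H816R3.Smirnov

/-- continuity at the node points -/
def ContNode (h : Z → ℝ) : Prop := ∀ (v : V) (b ε : ℝ), 0 < ε →
  ∃ (m : ℕ) (F : Finset ℝ), ∀ z', O m F (.pt v b) z' → |h z' - h (.pt v b)| < ε

/-- from the top of a link to its right nodes -/
theorem top_to_right {h : Z → ℝ} (hc : ContNode h) (l : L) (cc ε : ℝ) (hε : 0 < ε)
    (hA : ¬ {a : ℝ | h (.pt (top l) a) ≤ cc}.Countable) :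
    ∃ K : ℕ, ∀ k, K ≤ k → ∀ b, h (.pt (rt l k) b) ≤ cc + ε := by
  have h1 : ∀ a : ℝ, ∃ m : ℕ, ∀ k, m ≤ k → ∀ b, h (.lk l k a b) ≤ h (.pt (top l) a) + ε / 2 := by
    intro a
    obtain ⟨m, F, hm⟩ := hc (top l) a (ε / 2) (half_pos hε)
    refine ⟨m, fun k hk b => ?_⟩
    have h2 := hm (.lk l k a b) (Or.inl ⟨rfl, hk, rfl⟩)
    have := (abs_lt.1 h2).2
    linarith
  choose m hm using h1
  -- pigeonhole
  obtain ⟨K, hK⟩ : ∃ K : ℕ, {a : ℝ | h (.pt (top l) a) ≤ cc ∧ m a ≤ K}.Infinite := by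
    by_contra hcon
    push Not at hcon
    apply hA
    have h2 : {a : ℝ | h (.pt (top l) a) ≤ cc}
        ⊆ ⋃ K : ℕ, {a : ℝ | h (.pt (top l) a) ≤ cc ∧ m a ≤ K} := by
      intro a ha
      exact Set.mem_iUnion.2 ⟨m a, ha, le_rfl⟩
    refine Set.Countable.mono h2 (Set.countable_iUnion fun K => ?_)
    exact (hcon K).countable
  refine ⟨K, fun k hk b => ?_⟩
  obtain ⟨m', F, hF⟩ := hc (rt l k) b (ε / 2) (half_pos hε)
  obtain ⟨a, ha, haF⟩ := hK.exists_notMem_finset F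
  have h2 := hF (.lk l k a b) (Or.inr ⟨rfl, rfl, haF⟩)
  have h3 := hm a k (ha.2.trans hk) b
  have h4 := ha.1
  have h5 := (abs_lt.1 h2).1
  linarith

/-- from the right nodes of a link to its top -/
theorem right_to_top {h : Z → ℝ} (hc : ContNode h) (l : L) (cc ε : ℝ) (hε : 0 < ε)
    (hB : ∃ K : ℕ, ∀ k, K ≤ k → h (.pt (rt l k) 0) ≤ cc) :
    ¬ {a : ℝ | h (.pt (top l) a) ≤ cc + ε}.Countable := by
  obtain ⟨K, hK⟩ := hB
  have h1 : ∀ k : ℕ, ∃ F : Finset ℝ, ∀ a ∉ F, h (.lk l k a 0) ≤ h (.pt (rt l k) 0) + ε / 2 := by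
    intro k
    obtain ⟨m, F, hF⟩ := hc (rt l k) 0 (ε / 2) (half_pos hε)
    refine ⟨F, fun a ha => ?_⟩
    have h2 := hF (.lk l k a 0) (Or.inr ⟨rfl, rfl, ha⟩)
    have := (abs_lt.1 h2).2
    linarith
  choose F hF using h1
  intro hcount
  have h2 : (Set.univ : Set ℝ) ⊆ {a : ℝ | h (.pt (top l) a) ≤ cc + ε} ∪ ⋃ k, (F k : Set ℝ) := by
    intro a _
    by_cases ha : a ∈ ⋃ k, (F k : Set ℝ)
    · exact Or.inr ha
    · left
      rw [Set.mem_iUnion] at ha
      push Not at ha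
      obtain ⟨m, F', hm⟩ := hc (top l) a (ε / 2) (half_pos hε)
      have h3 := hm (.lk l (max m K) a 0) (Or.inl ⟨rfl, le_max_left _ _, rfl⟩)
      have h4 := hF (max m K) a (fun h => ha _ (Finset.mem_coe.2 h))
      have h5 := hK (max m K) (le_max_right _ _)
      have h6 := (abs_lt.1 h3).1
      change h (.pt (top l) a) ≤ cc + ε
      linarith
  have h3 : (Set.univ : Set ℝ).Countable :=
    Set.Countable.mono h2 (hcount.union (Set.countable_iUnion fun k => (F k).countable_toSet))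
  exact Cardinal.not_countable_real h3

/-- passing one stage -/
theorem stage_step {h : Z → ℝ} (hc : ContNode h) (j : ℕ) (cc ε : ℝ) (hε : 0 < ε)
    (hB : ∃ K : ℕ, ∀ k, K ≤ k → ∀ b, h (.pt (.nd j [k]) b) ≤ cc) :
    ∃ K : ℕ, ∀ k, K ≤ k → ∀ b, h (.pt (.nd (j + 1) [k]) b) ≤ cc + ε := by
  obtain ⟨K, hK⟩ := hB
  -- every nonempty sequence can be prolonged
  have hstep : ∀ (s : List ℕ) (n : ℕ), (∀ b, h (.pt (.nd j s) b) ≤ cc + ε / 4 * (1 - (1 / 2) ^ n)) →
      ∃ k : ℕ, ∀ b, h (.pt (.nd j (k :: s)) b) ≤ cc + ε / 4 * (1 - (1 / 2) ^ (n + 1)) := by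
    intro s n hs
    have h1 : ¬ {a : ℝ | h (.pt (top (.tr j s)) a) ≤ cc + ε / 4 * (1 - (1 / 2) ^ n)}.Countable := by
      have : {a : ℝ | h (.pt (top (.tr j s)) a) ≤ cc + ε / 4 * (1 - (1 / 2) ^ n)} = Set.univ :=
        Set.eq_univ_of_forall fun a => hs a
      rw [this]
      exact Cardinal.not_countable_real
    obtain ⟨K', hK'⟩ := top_to_right hc (.tr j s) _ (ε / 4 * (1 / 2) ^ (n + 1)) (by positivity) h1
    refine ⟨K', fun b => (hK' K' le_rfl b).trans (le_of_eq ?_)⟩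
    rw [pow_succ]; ring
  choose! nxt hnxt using hstep
  -- the branch
  let seq : ℕ → List ℕ := fun n => Nat.rec [K] (fun n s => nxt s n :: s) n
  have hseq0 : seq 0 = [K] := rfl
  have hseqs : ∀ n, seq (n + 1) = nxt (seq n) n :: seq n := fun n => rfl
  have hseq : ∀ n b, h (.pt (.nd j (seq n)) b) ≤ cc + ε / 4 * (1 - (1 / 2) ^ n) := by
    intro n
    induction n with
    | zero =>
      intro b
      rw [hseq0]
      simpa using hK K le_rfl b
    | succ n ih =>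
      rw [hseqs]
      exact hnxt (seq n) n ih
  let g : ℕ → ℕ := fun n => (seq n).headD 0
  have htake : ∀ n, take g (n + 1) = seq n := by
    intro n
    induction n with
    | zero => simp [take, g, hseq0]
    | succ n ih =>
      rw [take, ih, hseqs]
      simp [g, hseqs]
  have h2 : ¬ {a : ℝ | h (.pt (top (.br j g)) a) ≤ cc + ε / 4 + ε / 4}.Countable := by
    refine right_to_top hc (.br j g) _ _ (by positivity) ⟨1, fun k hk => ?_⟩
    obtain ⟨n, rfl⟩ : ∃ n, k = n + 1 := ⟨k - 1, by omega⟩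
    have h3 : rt (.br j g) (n + 1) = .nd j (seq n) := by
      simp only [rt, rs, rl, htake]
    rw [h3]
    refine (hseq n 0).trans ?_
    have : (0 : ℝ) ≤ (1 / 2) ^ n := by positivity
    nlinarith
  obtain ⟨K', hK'⟩ := top_to_right hc (.ex j g) (cc + ε / 4 + ε / 4) (ε / 2) (by positivity) h2
  refine ⟨K', fun k hk b => ?_⟩
  have h3 := hK' k hk b
  have h4 : rt (.ex j g) k = .nd (j + 1) [k] := rfl
  rw [h4] at h3
  linarith

theorem no_fun {h : Z → ℝ} (hc : ContNode h) (h0 : ∀ z, st z = 0 → h z ≤ 0)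
    (h1 : ∃ N, ∀ z, N ≤ st z → 3 / 4 ≤ h z) : False := by
  have key : ∀ j : ℕ, ∃ K : ℕ, ∀ k, K ≤ k → ∀ b, h (.pt (.nd j [k]) b)
      ≤ 1 / 2 * (1 - (1 / 2) ^ j) := by
    intro j
    induction j with
    | zero =>
      refine ⟨0, fun k _ b => ?_⟩
      simpa using h0 (.pt (.nd 0 [k]) b) rfl
    | succ j ih =>
      obtain ⟨K, hK⟩ := stage_step hc j _ (1 / 2 * (1 / 2) ^ (j + 1)) (by positivity) ih
      refine ⟨K, fun k hk b => (hK k hk b).trans (le_of_eq ?_)⟩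
      rw [pow_succ]; ring
  obtain ⟨N, hN⟩ := h1
  obtain ⟨K, hK⟩ := key N
  have h2 := hK K le_rfl 0
  have h3 := hN (.pt (.nd N [K]) 0) le_rfl
  have : (0 : ℝ) ≤ (1 / 2) ^ N := by positivity
  nlinarith

end Pool.Agent.H816R3.Smirnov
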