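import Pool.Agent.H816R3.Smirnov.Defs

set_option autoImplicit false

open Set Filter Topology

namespace Pool.Agent.H816R3.Smirnov

/-- the dense set of good levels of a branch -/
def D (g : ℕ → ℕ) : Set ℝ := ⋃ i, {r : ℝ | |r - c i| < 1 / ((g i : ℝ) + 1)}

theorem exists_c (q : ℚ) : ∃ i, c i = q := by
  refine ⟨Denumerable.eqv ℚ q, ?_⟩
  simp [c]

theorem c_mem_D (g : ℕ → ℕ) (i : ℕ) : c i ∈ D g := by
  refine Set.mem_iUnion.2 ⟨i, ?_⟩
  simp only [Set.mem_setOf_eq, sub_self, abs_zero]
  positivity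

theorem isOpen_D (g : ℕ → ℕ) : IsOpen (D g) := by
  refine isOpen_iUnion fun i => ?_
  exact isOpen_lt (by fun_prop) continuous_const

theorem exists_level (g : ℕ → ℕ) : ∃ y : ℝ, (∀ q : ℚ, (q : ℝ) + y ∈ D g) ∧ Irrational y := by
  have hopen : ∀ q : ℚ, IsOpen ({x : ℝ | (q : ℝ) + x ∈ D g} ∩ {(q : ℝ)}ᶜ) := by
    intro q
    refine IsOpen.inter ?_ isOpen_compl_singleton
    exact (isOpen_D g).preimage (by fun_prop : Continuous fun x : ℝ => (q : ℝ) + x)
  have hdense : ∀ q : ℚ, Dense ({x : ℝ | (q : ℝ) + x ∈ D g} ∩ {(q : ℝ)}ᶜ) := by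
    intro q
    have h1 : Dense {x : ℝ | (q : ℝ) + x ∈ D g} := by
      refine Dense.mono ?_ (Rat.denseRange_cast (𝕜 := ℝ))
      rintro _ ⟨p, rfl⟩
      obtain ⟨i, hi⟩ := exists_c (q + p)
      have h2 := c_mem_D g i
      rw [hi] at h2
      simpa using h2
    exact h1.inter_of_isOpen_left (dense_compl_singleton _)
      ((isOpen_D g).preimage (by fun_prop : Continuous fun x : ℝ => (q : ℝ) + x))
  obtain ⟨y, hy⟩ := (dense_iInter_of_isOpen hopen hdense).nonempty
  rw [Set.mem_iInter] at hy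
  refine ⟨y, fun q => (hy q).1, ?_⟩
  rintro ⟨q, hq⟩
  exact (hy q).2 hq.symm

/-- the level attached to a branch -/
noncomputable def level (g : ℕ → ℕ) : ℝ := (exists_level g).choose

theorem level_mem (g : ℕ → ℕ) (q : ℚ) : (q : ℝ) + level g ∈ D g :=
  (exists_level g).choose_spec.1 q

theorem level_irrational (g : ℕ → ℕ) : Irrational (level g) :=
  (exists_level g).choose_spec.2

/-- levels of the nodes -/
noncomputable def phiV : V → ℝ
  | .nd _ _ => Real.sqrt 2
  | .tp _ g => level g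

/-- levels of the points of the base -/
noncomputable def phi : Z → ℝ
  | .pt v _ => phiV v
  | .lk _ _ _ _ => Real.sqrt 2

theorem irrational_phi (z : Z) : Irrational (phi z) := by
  cases z with
  | pt v b =>
    cases v with
    | nd j s => exact irrational_sqrt_two
    | tp j g => exact level_irrational g
  | lk l k a b => exact irrational_sqrt_two

theorem T_loc (s : List ℕ) (r : ℝ) (hr : Irrational r) :
    ∃ δ : ℝ, 0 < δ ∧ ∀ r', |r' - r| < δ → T s r' = T s r := by
  induction s with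
  | nil => exact ⟨1, one_pos, fun r' _ => rfl⟩
  | cons k s ih =>
    obtain ⟨δ, hδ, h⟩ := ih
    have hne : |r - c s.length| ≠ 1 / ((k : ℝ) + 1) := by
      intro hcon
      have h1 : Irrational (r - c s.length) := by
        unfold c
        exact hr.sub_ratCast _
      rcases abs_cases (r - c s.length) with ⟨h2, _⟩ | ⟨h2, _⟩
      · rw [h2] at hcon
        apply h1
        exact ⟨1 / ((k : ℚ) + 1), by push_cast; exact hcon.symm⟩
      · rw [h2] at hcon
        apply h1
        exact ⟨-(1 / ((k : ℚ) + 1)), by push_cast; linarith⟩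
    rcases lt_or_gt_of_ne hne with hlt | hgt
    · refine ⟨1 / ((k : ℝ) + 1) - |r - c s.length|, by linarith, ?_⟩
      intro r' hr'
      have h3 : |r' - c s.length| < 1 / ((k : ℝ) + 1) := by
        have := abs_sub_le r' r (c s.length)
        linarith
      simp only [T]
      rw [if_pos h3, if_pos hlt]
    · refine ⟨min δ (|r - c s.length| - 1 / ((k : ℝ) + 1)), lt_min hδ (by linarith), ?_⟩
      intro r' hr'
      have h4 := hr'.trans_le (min_le_right _ _)
      have h5 := hr'.trans_le (min_le_left _ _)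
      have h3 : ¬ |r' - c s.length| < 1 / ((k : ℝ) + 1) := by
        have := abs_sub_le r r' (c s.length)
        rw [abs_sub_comm r r'] at this
        linarith
      simp only [T]
      rw [if_neg h3, if_neg (not_lt.2 hgt.le)]
      exact h r' h5

theorem nu_loc (n : ℕ) (v : V) (r : ℝ) (hr : Irrational r) :
    ∃ δ : ℝ, 0 < δ ∧ ∀ r', |r' - r| < δ → nu n v r' = nu n v r := by
  cases v with
  | tp j g => exact ⟨1, one_pos, fun r' _ => rfl⟩
  | nd j s =>
    obtain ⟨δ, hδ, h⟩ := T_loc s r hr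
    refine ⟨δ, hδ, fun r' hr' => ?_⟩
    simp only [nu]
    rw [h r' hr']

theorem T_take_eq_zero (g : ℕ → ℕ) (i : ℕ) (r : ℝ) (h : |r - c i| < 1 / ((g i : ℝ) + 1)) (k : ℕ)
    (hk : i + 1 ≤ k) : T (take g k) r = 0 := by
  induction k, hk using Nat.le_induction with
  | base =>
    simp only [take, T, length_take]
    rw [if_pos h]
  | succ k hk ih =>
    simp only [take, T, length_take]
    rw [ih]
    simp

theorem irr_dist (i : ℕ) (r : ℝ) (hr : Irrational r) :
    ∃ (m : ℕ) (δ : ℝ), 0 < δ ∧ ∀ r' : ℝ, |r' - r| < δ → ∀ k : ℕ, m ≤ k →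
      ¬ |r' - c i| < 1 / ((k : ℝ) + 1) := by
  have hne : 0 < |r - c i| := by
    rw [abs_pos, sub_ne_zero]
    intro h
    exact hr ⟨_, h.symm⟩
  obtain ⟨m, hm⟩ := exists_nat_one_div_lt (half_pos hne)
  refine ⟨m, |r - c i| / 2, half_pos hne, ?_⟩
  intro r' hr' k hk hcon
  have h1 : 1 / ((k : ℝ) + 1) ≤ 1 / ((m : ℝ) + 1) := by
    have : (m : ℝ) ≤ k := by exact_mod_cast hk
    gcongr
  have h2 := abs_sub_le r r' (c i)
  rw [abs_sub_comm r r'] at h2
  linarith

theorem nu_top (n : ℕ) (v : V) (q : ℚ) :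
    ∃ (m : ℕ) (δ : ℝ), 0 < δ ∧ ∀ (l : L) (k : ℕ), top l = v → m ≤ k →
      ∀ r' : ℝ, |r' - (q + phiV v)| < δ → nu n (rt l k) r' = nu n v (q + phiV v) := by
  cases v with
  | nd j s =>
    have hirr : Irrational ((q : ℝ) + phiV (.nd j s)) := irrational_sqrt_two.ratCast_add q
    obtain ⟨m, δ, hδ, h⟩ := irr_dist s.length _ hirr
    obtain ⟨δ', hδ', h'⟩ := T_loc s _ hirr
    refine ⟨m, min δ δ', lt_min hδ hδ', ?_⟩
    intro l k hl hk r' hr'
    cases l with
    | br j' g => simp [top] at hl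
    | ex j' g => simp [top] at hl
    | tr j' s' =>
      simp only [top, V.nd.injEq] at hl
      obtain ⟨rfl, rfl⟩ := hl
      simp only [rt, rs, rl, nu, T]
      rw [if_neg (h r' (hr'.trans_le (min_le_left _ _)) k hk),
        h' r' (hr'.trans_le (min_le_right _ _))]
  | tp j g =>
    have hirr : Irrational ((q : ℝ) + phiV (.tp j g)) := (level_irrational g).ratCast_add q
    obtain ⟨m, δ, hδ, h⟩ := irr_dist 0 _ hirr
    have hmem : (q : ℝ) + phiV (.tp j g) ∈ D g := level_mem g q
    obtain ⟨i, hi⟩ := Set.mem_iUnion.1 hmem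
    simp only [Set.mem_setOf_eq] at hi
    refine ⟨max m (i + 1), min δ (1 / ((g i : ℝ) + 1) - |(q : ℝ) + phiV (.tp j g) - c i|),
      lt_min hδ (by linarith), ?_⟩
    intro l k hl hk r' hr'
    cases l with
    | tr j' s' => simp [top] at hl
    | br j' g' =>
      simp only [top, V.tp.injEq] at hl
      obtain ⟨rfl, rfl⟩ := hl
      have h1 : T (take g' k) r' = 0 := by
        refine T_take_eq_zero g' i r' ?_ k (le_trans (le_max_right _ _) hk)
        have h2 := hr'.trans_le (min_le_right _ _)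
        have h3 := abs_sub_le r' ((q : ℝ) + phiV (.tp j' g')) (c i)
        linarith
      simp only [rt, rs, rl, nu, h1]
      by_cases hjn : j' < n
      · simp [hjn]
      · simp [hjn]
    | ex j' g' =>
      simp only [top, V.tp.injEq] at hl
      obtain ⟨rfl, rfl⟩ := hl
      have h1 : T [k] r' = 1 := by
        simp only [T, List.length_nil]
        rw [if_neg (h r' (hr'.trans_le (min_le_left _ _)) k (le_trans (le_max_left _ _) hk))]
      simp only [rt, rs, rl, nu, h1]
      by_cases hjn : j' < n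
      · by_cases hjn' : j' + 1 < n
        · simp [hjn, hjn']
        · have : j' + 1 = n := by omega
          simp [hjn, this]
      · have h2 : ¬ j' + 1 < n := by omega
        have h3 : ¬ j' + 1 = n := by omega
        simp [hjn, h2, h3]

/-- the functions `f n` are locally constant at all real levels -/
theorem f_loc (n : ℕ) (z : Z) (q : ℚ) :
    ∃ (m : ℕ) (F : Finset ℝ) (δ : ℝ), 0 < δ ∧ ∀ (z' : Z) (r' : ℝ), O m F z z' →
      |r' - (q + phi z)| < δ → f n r' z' = f n (q + phi z) z := by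
  have hirr : Irrational ((q : ℝ) + phi z) := (irrational_phi z).ratCast_add q
  cases z with
  | lk l k a b =>
    obtain ⟨δ, hδ, h⟩ := nu_loc n (rt l k) _ hirr
    refine ⟨0, ∅, δ, hδ, ?_⟩
    intro z' r' hz' hr'
    have : z' = .lk l k a b := hz'
    subst this
    exact h r' hr'
  | pt v b =>
    obtain ⟨δ, hδ, h⟩ := nu_loc n v _ hirr
    obtain ⟨m, δ', hδ', h'⟩ := nu_top n v q
    refine ⟨m, ∅, min δ δ', lt_min hδ hδ', ?_⟩
    intro z' r' hz' hr'
    cases z' with
    | pt v' b' =>
      obtain ⟨rfl, rfl⟩ := hz'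
      exact h r' (hr'.trans_le (min_le_left _ _))
    | lk l k a b' =>
      rcases hz' with ⟨h1, h2, h3⟩ | ⟨h1, h2, h3⟩
      · exact h' l k h1 h2 r' (hr'.trans_le (min_le_right _ _))
      · simp only [f]
        rw [h1]
        exact h r' (hr'.trans_le (min_le_left _ _))

end Pool.Agent.H816R3.Smirnov
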