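import Pool.Agent.H816R3.Smirnov.Levels

set_option autoImplicit false

open Set Filter Topology

namespace Pool.Agent.H816R3.Smirnov

/-- the space: a fixed point and the rational translates of the base points -/
inductive X : Type
  | p
  | mk (q : ℚ) (z : Z)

/-- index set of the defining functions -/
abbrev Idx : Type := ((Z × ℕ × Finset ℝ) × Bool) ⊕ ℕ

open Classical in
/-- the defining functions -/
noncomputable def Phi : X → Idx → ℝ
  | .p, _ => 0
  | .mk _ z, .inl ((z0, m, F), false) => if O m F z0 z then 1 else 0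
  | .mk q z, .inl ((z0, m, F), true) => if O m F z0 z then q + phi z else 0
  | .mk q z, .inr n => f n (q + phi z) z

noncomputable instance : TopologicalSpace X := TopologicalSpace.induced Phi inferInstance

theorem isInducing_Phi : IsInducing Phi := ⟨rfl⟩

theorem injective_Phi : Function.Injective Phi := by
  intro x y h
  cases x with
  | p =>
    cases y with
    | p => rfl
    | mk q z =>
      have h1 := congrFun h (.inl ((z, 0, ∅), false))
      simp [Phi, O_refl] at h1
  | mk q z =>
    cases y with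
    | p =>
      have h1 := congrFun h (.inl ((z, 0, ∅), false))
      simp [Phi, O_refl] at h1
    | mk q' z' =>
      have hz : z = z' := by
        by_contra hne
        -- separate z and z'
        have h0 : ∃ (m : ℕ) (F : Finset ℝ), ¬ O m F z z' := by
          cases z with
          | lk l k a b =>
            exact ⟨0, ∅, fun hcon => hne (show Z.lk l k a b = z' from (show z' = Z.lk l k a b from hcon).symm)⟩
          | pt v b =>
            cases z' with
            | pt v' b' =>
              refine ⟨0, ∅, ?_⟩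
              rintro ⟨rfl, rfl⟩
              exact hne rfl
            | lk l k a b' =>
              refine ⟨k + 1, {a}, ?_⟩
              rintro (⟨_, h2, _⟩ | ⟨_, _, h3⟩)
              · omega
              · exact h3 (Finset.mem_singleton_self a)
        obtain ⟨m, F, h0⟩ := h0
        have h1 := congrFun h (.inl ((z, m, F), false))
        simp [Phi, O_refl, h0] at h1
      subst hz
      have h1 := congrFun h (.inl ((z, 0, ∅), true))
      simp [Phi, O_refl] at h1
      rw [h1]

theorem isEmbedding_Phi : IsEmbedding Phi := ⟨isInducing_Phi, injective_Phi⟩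

instance : T35Space X := isEmbedding_Phi.t35Space

noncomputable instance : AddAction ℚ X where
  vadd q x := match x with
    | .p => .p
    | .mk q' z => .mk (q + q') z
  zero_vadd x := by
    cases x with
    | p => rfl
    | mk q z => exact congrArg (fun t => X.mk t z) (zero_add q)
  add_vadd a b x := by
    cases x with
    | p => rfl
    | mk q z => exact congrArg (fun t => X.mk t z) (add_assoc a b q)

theorem vadd_p (q : ℚ) : q +ᵥ (X.p : X) = X.p := rfl
theorem vadd_mk (q q' : ℚ) (z : Z) : q +ᵥ (X.mk q' z) = X.mk (q + q') z := rfl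

/-- the filter of basic neighbourhoods of `mk q z` -/
def filt (q : ℚ) (z : Z) : Filter X where
  sets := {U | ∃ (m : ℕ) (F : Finset ℝ) (δ : ℝ), 0 < δ ∧ ∀ (q' : ℚ) (z' : Z), O m F z z' →
    |(q' + phi z') - (q + phi z)| < δ → X.mk q' z' ∈ U}
  univ_sets := ⟨0, ∅, 1, one_pos, fun _ _ _ _ => trivial⟩
  sets_of_superset := by
    rintro U U' ⟨m, F, δ, hδ, h⟩ hUU
    exact ⟨m, F, δ, hδ, fun q' z' h1 h2 => hUU (h q' z' h1 h2)⟩
  inter_sets := by
    classical
    rintro U U' ⟨m, F, δ, hδ, h⟩ ⟨m', F', δ', hδ', h'⟩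
    refine ⟨max m m', F ∪ F', min δ δ', lt_min hδ hδ', fun q' z' h1 h2 => ⟨?_, ?_⟩⟩
    · exact h q' z' (O_mono (le_max_left _ _) Finset.subset_union_left h1)
        (h2.trans_le (min_le_left _ _))
    · exact h' q' z' (O_mono (le_max_right _ _) Finset.subset_union_right h1)
        (h2.trans_le (min_le_right _ _))

theorem mem_filt {q : ℚ} {z : Z} {U : Set X} : U ∈ filt q z ↔
    ∃ (m : ℕ) (F : Finset ℝ) (δ : ℝ), 0 < δ ∧ ∀ (q' : ℚ) (z' : Z), O m F z z' →
    |(q' + phi z') - (q + phi z)| < δ → X.mk q' z' ∈ U := Iff.rfl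

theorem filt_le_nhds (q : ℚ) (z : Z) : filt q z ≤ 𝓝 (X.mk q z) := by
  have h : Tendsto id (filt q z) (𝓝 (X.mk q z)) := by
    rw [isInducing_Phi.tendsto_nhds_iff, tendsto_pi_nhds]
    intro i
    rw [Metric.tendsto_nhds]
    intro ε hε
    rw [Filter.Eventually, mem_filt]
    rcases i with ⟨⟨z0, m, F⟩, _ | _⟩ | n
    · by_cases h0 : O m F z0 z
      · obtain ⟨m', F', h'⟩ := (O_clopen m F z0 z).1 h0
        refine ⟨m', F', 1, one_pos, fun q' z' h1 _ => ?_⟩
        simp [Phi, h' z' h1, h0, hε]
      · obtain ⟨m', F', h'⟩ := (O_clopen m F z0 z).2 h0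
        refine ⟨m', F', 1, one_pos, fun q' z' h1 _ => ?_⟩
        simp [Phi, h' z' h1, h0, hε]
    · by_cases h0 : O m F z0 z
      · obtain ⟨m', F', h'⟩ := (O_clopen m F z0 z).1 h0
        refine ⟨m', F', ε, hε, fun q' z' h1 h2 => ?_⟩
        simp only [Set.mem_setOf_eq, id, Function.comp, Phi, h' z' h1, h0, if_true]
        rw [Real.dist_eq]
        exact h2
      · obtain ⟨m', F', h'⟩ := (O_clopen m F z0 z).2 h0
        refine ⟨m', F', 1, one_pos, fun q' z' h1 _ => ?_⟩
        simp [Phi, h' z' h1, h0, hε]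
    · obtain ⟨m, F, δ, hδ, h⟩ := f_loc n z q
      refine ⟨m, F, δ, hδ, fun q' z' h1 h2 => ?_⟩
      simp only [Set.mem_setOf_eq, id, Function.comp, Phi]
      rw [h z' _ h1 h2, dist_self]
      exact hε
  exact h

/-- the filter of basic neighbourhoods of the fixed point -/
def filtp : Filter X where
  sets := {U | X.p ∈ U ∧ ∃ N : ℕ, ∀ (q : ℚ) (z : Z), N ≤ st z → X.mk q z ∈ U}
  univ_sets := ⟨trivial, 0, fun _ _ _ => trivial⟩
  sets_of_superset := by
    rintro U U' ⟨hp, N, h⟩ hUU
    exact ⟨hUU hp, N, fun q z h1 => hUU (h q z h1)⟩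
  inter_sets := by
    rintro U U' ⟨hp, N, h⟩ ⟨hp', N', h'⟩
    exact ⟨⟨hp, hp'⟩, max N N', fun q z h1 =>
      ⟨h q z ((le_max_left _ _).trans h1), h' q z ((le_max_right _ _).trans h1)⟩⟩

theorem mem_filtp {U : Set X} : U ∈ filtp ↔
    X.p ∈ U ∧ ∃ N : ℕ, ∀ (q : ℚ) (z : Z), N ≤ st z → X.mk q z ∈ U := Iff.rfl

theorem filtp_le_nhds : filtp ≤ 𝓝 X.p := by
  have h : Tendsto id filtp (𝓝 X.p) := by
    rw [isInducing_Phi.tendsto_nhds_iff, tendsto_pi_nhds]
    intro i
    rw [Metric.tendsto_nhds]
    intro ε hε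
    rw [Filter.Eventually, mem_filtp]
    refine ⟨by simp [hε], ?_⟩
    rcases i with ⟨⟨z0, m, F⟩, _ | _⟩ | n
    · refine ⟨st z0 + 2, fun q z hz => ?_⟩
      have h0 : ¬ O m F z0 z := fun h0 => by
        have := st_le_of_O h0
        omega
      simp [Phi, h0, hε]
    · refine ⟨st z0 + 2, fun q z hz => ?_⟩
      have h0 : ¬ O m F z0 z := fun h0 => by
        have := st_le_of_O h0
        omega
      simp [Phi, h0, hε]
    · refine ⟨n + 1, fun q z hz => ?_⟩
      have h0 : f n (q + phi z) z = 0 := f_of_lt_st hz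
      simp [Phi, h0, hε]
  exact h

/-- converse inclusion at the fixed point -/
theorem mem_nhds_p (N : ℕ) : {x : X | x = .p ∨ ∃ q z, x = .mk q z ∧ N ≤ st z} ∈ 𝓝 X.p := by
  have h1 : Tendsto (fun x => Phi x (.inr N)) (𝓝 X.p) (𝓝 (Phi X.p (.inr N))) :=
    ((continuous_apply (Sum.inr N : Idx)).comp isInducing_Phi.continuous).tendsto _
  have h2 : {t : ℝ | t < 1 / 2} ∈ 𝓝 (Phi X.p (.inr N)) := by
    refine (isOpen_lt continuous_id continuous_const).mem_nhds ?_
    simp [Phi]
  filter_upwards [h1 h2] with x hx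
  cases x with
  | p => exact Or.inl rfl
  | mk q z =>
    refine Or.inr ⟨q, z, rfl, ?_⟩
    by_contra hcon
    have h3 : f N (q + phi z) z = 1 := f_of_st_lt (not_le.1 hcon)
    simp only [Set.mem_preimage, Set.mem_setOf_eq, Phi, h3] at hx
    norm_num at hx

/-- converse inclusion at the other points -/
theorem mem_nhds_mk (q : ℚ) (z : Z) (m : ℕ) (F : Finset ℝ) (δ : ℝ) (hδ : 0 < δ) :
    {x : X | ∃ q' z', x = .mk q' z' ∧ O m F z z' ∧ |(q' + phi z') - (q + phi z)| < δ}
      ∈ 𝓝 (X.mk q z) := by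
  have h1 : ∀ i : Idx, Tendsto (fun x => Phi x i) (𝓝 (X.mk q z)) (𝓝 (Phi (X.mk q z) i)) :=
    fun i => ((continuous_apply i).comp isInducing_Phi.continuous).tendsto _
  have h2 : {t : ℝ | 1 / 2 < t} ∈ 𝓝 (Phi (X.mk q z) (.inl ((z, m, F), false))) := by
    refine (isOpen_lt continuous_const continuous_id).mem_nhds ?_
    simp only [Set.mem_setOf_eq, Phi, O_refl, if_true, id]
    norm_num
  have h3 : Metric.ball (Phi (X.mk q z) (.inl ((z, m, F), true))) δ
      ∈ 𝓝 (Phi (X.mk q z) (.inl ((z, m, F), true))) := Metric.ball_mem_nhds _ hδ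
  filter_upwards [h1 _ h2, h1 _ h3] with x hx2 hx3
  cases x with
  | p =>
    simp only [Set.mem_preimage, Set.mem_setOf_eq, Phi] at hx2
    norm_num at hx2
  | mk q' z' =>
    by_cases h0 : O m F z z'
    · refine ⟨q', z', rfl, h0, ?_⟩
      simp only [Set.mem_preimage, Metric.mem_ball, Phi, h0, O_refl, if_true, Real.dist_eq] at hx3
      exact hx3
    · simp only [Set.mem_preimage, Set.mem_setOf_eq, Phi, h0, if_false] at hx2
      norm_num at hx2

instance : ContinuousVAdd ℚ X := by
  constructor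
  rw [isInducing_Phi.continuous_iff, continuous_pi_iff]
  have hc : ∀ i : Idx, Continuous fun x : X => Phi x i := fun i =>
    (continuous_apply i).comp isInducing_Phi.continuous
  intro i
  rcases i with ⟨⟨z0, m, F⟩, _ | _⟩ | n
  · have h1 : (fun a : ℚ × X => (Phi ∘ fun p : ℚ × X => p.1 +ᵥ p.2) a (.inl ((z0, m, F), false)))
        = fun a => Phi a.2 (.inl ((z0, m, F), false)) := by
      funext a
      obtain ⟨q, x⟩ := a
      cases x with
      | p => rfl
      | mk q' z => rfl
    rw [h1]
    exact (hc _).comp continuous_snd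
  · have h1 : (fun a : ℚ × X => (Phi ∘ fun p : ℚ × X => p.1 +ᵥ p.2) a (.inl ((z0, m, F), true)))
        = fun a => Phi a.2 (.inl ((z0, m, F), true))
          + (a.1 : ℝ) * Phi a.2 (.inl ((z0, m, F), false)) := by
      funext a
      obtain ⟨q, x⟩ := a
      cases x with
      | p => simp [Phi, vadd_p]
      | mk q' z =>
        simp only [Function.comp, vadd_mk, Phi]
        by_cases h0 : O m F z0 z
        · simp only [h0, if_true]
          push_cast
          ring
        · simp [h0]
    rw [h1]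
    exact ((hc _).comp continuous_snd).add
      ((Rat.continuous_coe_real.comp continuous_fst).mul ((hc _).comp continuous_snd))
  · rw [continuous_iff_continuousAt]
    rintro ⟨q0, x0⟩
    refine Tendsto.congr' (f₁ := fun _ => Phi (q0 +ᵥ x0) (.inr n)) ?_ tendsto_const_nhds
    cases x0 with
    | p =>
      have h1 : ∀ᶠ a : ℚ × X in 𝓝 (q0, X.p), a.2 = .p ∨ ∃ q z, a.2 = .mk q z ∧ n + 1 ≤ st z :=
        (continuous_snd.tendsto (q0, X.p)) (mem_nhds_p (n + 1))
      filter_upwards [h1] with a ha
      obtain ⟨q, x⟩ := a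
      rcases ha with hx | ⟨q', z, hx, hz⟩
      · simp only at hx
        subst hx
        rfl
      · simp only at hx
        subst hx
        simp only [Function.comp, vadd_mk, vadd_p, Phi]
        exact (f_of_lt_st hz).symm
    | mk q z =>
      obtain ⟨m, F, δ, hδ, h⟩ := f_loc n z (q0 + q)
      have h1 : ∀ᶠ a : ℚ × X in 𝓝 (q0, X.mk q z), ∃ q' z', a.2 = .mk q' z' ∧ O m F z z' ∧
          |(q' + phi z') - (q + phi z)| < δ / 2 :=
        (continuous_snd.tendsto (q0, X.mk q z)) (mem_nhds_mk q z m F (δ / 2) (half_pos hδ))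
      have h2 : ∀ᶠ a : ℚ × X in 𝓝 (q0, X.mk q z), dist (a.1 : ℝ) (q0 : ℝ) < δ / 2 := by
        have h3 : Tendsto (fun a : ℚ × X => (a.1 : ℝ)) (𝓝 (q0, X.mk q z)) (𝓝 (q0 : ℝ)) :=
          (Rat.continuous_coe_real.comp continuous_fst).tendsto _
        exact Metric.tendsto_nhds.1 h3 _ (half_pos hδ)
      filter_upwards [h1, h2] with a ha1 ha2
      obtain ⟨q1, x⟩ := a
      obtain ⟨q', z', hx, hO, hd⟩ := ha1
      simp only at hx ha2
      subst hx
      simp only [Function.comp, vadd_mk, Phi]
      refine (h z' _ hO ?_).symm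
      rw [Real.dist_eq] at ha2
      push_cast
      have e : (q1 : ℝ) + q' + phi z' - (q0 + q + phi z)
          = ((q1 : ℝ) - q0) + ((q' + phi z') - (q + phi z)) := by ring
      rw [e]
      have := abs_add_le ((q1 : ℝ) - q0) ((q' + phi z') - (q + phi z))
      linarith

end Pool.Agent.H816R3.Smirnov
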